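import Mathlib

/-!
# Definitions for the directed polymer driven by a Markov chain

Used in the statement of `Pool.Agent.Results.MP_6abe48_pr.RevRecBeta2.result`.
-/

set_option autoImplicit false

open MeasureTheory ProbabilityTheory
open scoped ENNReal NNReal

namespace Pool.Agent.Helper95.RevRec

/-- Law of `S_n` for the Markov chain with one-step laws `P x`, started at `x`
(so `stepLaw P n x y` is the n-step transition probability from `x` to `y`). -/
noncomputable def stepLaw {V : Type} (P : V → PMF V) : ℕ → V → PMF V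
  | 0, x => PMF.pure x
  | n + 1, x => (P x).bind (stepLaw P n)

/-- Irreducibility. -/
def IsIrreducible {V : Type} (P : V → PMF V) : Prop := ∀ x y, ∃ n, stepLaw P n x y ≠ 0

/-- Reversibility with respect to some positive (finite-valued) measure on `V`. -/
def IsReversible {V : Type} (P : V → PMF V) : Prop :=
  ∃ π : V → ℝ, (∀ x, 0 < π x) ∧ ∀ x y, π x * (P x y).toReal = π y * (P y x).toReal

/-- Recurrence: the expected number of visits of the walk to its starting point is infinite. -/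
def IsRecurrent {V : Type} (P : V → PMF V) : Prop := ∀ x, ∑' n, stepLaw P n x x = ∞

/-- `P_x (S_1 = s 0, ..., S_n = s (n-1))`. -/
noncomputable def pathProb {V : Type} (P : V → PMF V) {n : ℕ} (x : V) (s : Fin n → V) : ℝ≥0∞ :=
  ∏ i : Fin n, P ((Fin.cons x s : Fin (n + 1) → V) i.castSucc) (s i)

/-- The environment hypotheses: `ω i y` is the variable attached to time `i + 1` and site `y`. -/
structure IsEnvironment {V Ω : Type} [MeasurableSpace Ω] (μ : Measure Ω)
    (ω : ℕ → V → Ω → ℝ) : Prop where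
  measurable : ∀ i y, Measurable (ω i y)
  indep : iIndepFun (fun p : ℕ × V => ω p.1 p.2) μ
  ident : ∀ i y j z, IdentDistrib (ω i y) (ω j z) μ μ
  memLp : ∀ i y, MemLp (ω i y) 2 μ
  mean : ∀ i y, ∫ a, ω i y a ∂μ = 0
  var : ∀ i y, ∫ a, (ω i y a) ^ 2 ∂μ = 1
  exp_moment : ∀ β : ℝ, 0 < β → ∀ i y, Integrable (fun a => Real.exp (β * ω i y a)) μ

/-- `Z_n(x) = E_x[exp(β * ∑_{i=1}^n w(i, S_i))]`. -/
noncomputable def Z {V : Type} (P : V → PMF V) (β : ℝ) (w : ℕ → V → ℝ) (n : ℕ) (x : V) : ℝ≥0∞ :=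
  ∑' s : Fin n → V, pathProb P x s * ENNReal.ofReal (Real.exp (β * ∑ i : Fin n, w i (s i)))

/-- `W_n(x, β) = Z_n(x) * exp(-n Λ(β))`. -/
noncomputable def W {V Ω : Type} [MeasurableSpace Ω] (P : V → PMF V) (μ : Measure Ω)
    (ω : ℕ → V → Ω → ℝ) (n : ℕ) (x : V) (β : ℝ) (a : Ω) : ℝ≥0∞ :=
  Z P β (fun i y => ω i y a) n x * ENNReal.ofReal (Real.exp (-(n * cgf (ω 0 x) μ β)))

/-- The `L²` critical value. -/
noncomputable def beta2 {V Ω : Type} [MeasurableSpace Ω] (P : V → PMF V) (μ : Measure Ω)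
    (ω : ℕ → V → Ω → ℝ) (x : V) : ℝ≥0∞ :=
  sSup {b : ℝ≥0∞ | ∃ β : ℝ≥0, b = β ∧ (⨆ n : ℕ, ∫⁻ a, (W P μ ω n x β a) ^ 2 ∂μ) < ∞}

end Pool.Agent.Helper95.RevRec
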