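import Mathlib
import Pool.Agent.Helper95.RevRec.Defs

set_option autoImplicit false

open MeasureTheory ProbabilityTheory
open scoped ENNReal NNReal

namespace Pool.Agent.Helper95.RevRec

section general

variable {V : Type} (P : V → PMF V)

lemma pathProb_cons {n : ℕ} (x y : V) (s : Fin n → V) :
    pathProb P x (Fin.cons y s : Fin (n + 1) → V) = P x y * pathProb P y s := by
  unfold pathProb
  rw [Fin.prod_univ_succ]
  simp only [Fin.cons_zero, Fin.castSucc_zero]
  congr 1

lemma tsum_cons {n : ℕ} (F : (Fin (n + 1) → V) → ℝ≥0∞) :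
    ∑' s : Fin (n + 1) → V, F s = ∑' y : V, ∑' s : Fin n → V, F (Fin.cons y s) := by
  rw [← (Fin.consEquiv (fun _ : Fin (n + 1) => V)).tsum_eq]
  rw [← ENNReal.tsum_prod (f := fun y s => F (Fin.cons y s))]
  rfl

/-- pair functional. -/
noncomputable def pairSum (K : V → V → ℝ≥0∞) (n : ℕ) (x x' : V) : ℝ≥0∞ :=
  ∑' s : Fin n → V, ∑' s' : Fin n → V,
    pathProb P x s * pathProb P x' s' * ∏ i, K (s i) (s' i)

lemma pairSum_zero (K : V → V → ℝ≥0∞) (x x' : V) : pairSum P K 0 x x' = 1 := by
  unfold pairSum pathProb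
  simp

lemma pairSum_succ (K : V → V → ℝ≥0∞) (n : ℕ) (x x' : V) :
    pairSum P K (n + 1) x x' =
      ∑' y : V, ∑' y' : V, P x y * P x' y' * K y y' * pairSum P K n y y' := by
  unfold pairSum
  rw [tsum_cons]
  refine tsum_congr fun y => ?_
  have : ∀ s : Fin n → V, (∑' s' : Fin (n + 1) → V,
      pathProb P x (Fin.cons y s : Fin (n + 1) → V) * pathProb P x' s' *
        ∏ i, K ((Fin.cons y s : Fin (n + 1) → V) i) (s' i)) =
      ∑' y' : V, ∑' s' : Fin n → V, (P x y * P x' y' * K y y') *
        (pathProb P y s * pathProb P y' s' * ∏ i, K (s i) (s' i)) := by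
    intro s
    rw [tsum_cons]
    refine tsum_congr fun y' => tsum_congr fun s' => ?_
    rw [pathProb_cons, pathProb_cons, Fin.prod_univ_succ]
    simp only [Fin.cons_zero, Fin.cons_succ]
    ring
  simp_rw [this]
  rw [ENNReal.tsum_comm]
  refine tsum_congr fun y' => ?_
  rw [← ENNReal.tsum_mul_left]
  refine tsum_congr fun s => ?_
  rw [← ENNReal.tsum_mul_left]

lemma pairSum_le (K : V → V → ℝ≥0∞) (h : V → V → ℝ≥0∞) (h1 : ∀ x x', 1 ≤ h x x')
    (hK : ∀ x x', ∑' y : V, ∑' y' : V, P x y * P x' y' * K y y' * h y y' ≤ h x x')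
    (n : ℕ) : ∀ x x', pairSum P K n x x' ≤ h x x' := by
  induction n with
  | zero => intro x x'; rw [pairSum_zero]; exact h1 x x'
  | succ n ih =>
    intro x x'
    rw [pairSum_succ]
    refine le_trans ?_ (hK x x')
    refine ENNReal.tsum_le_tsum fun y => ENNReal.tsum_le_tsum fun y' => ?_
    gcongr
    exact ih y y'

end general


section moment

variable {V Ω : Type} [MeasurableSpace Ω] {μ : Measure Ω} [IsProbabilityMeasure μ]
  {ω : ℕ → V → Ω → ℝ}

lemma IsEnvironment.integrable_exp (h : IsEnvironment μ ω) {t : ℝ} (ht : 0 ≤ t) (i : ℕ) (y : V) :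
    Integrable (fun a => Real.exp (t * ω i y a)) μ := by
  rcases ht.eq_or_lt with rfl | ht
  · simp
  · exact h.exp_moment t ht i y

/-- the count of visits of the two paths. -/
def cnt {n : ℕ} [DecidableEq V] (s s' : Fin n → V) (p : Fin n × V) : ℝ :=
  (if s p.1 = p.2 then 1 else 0) + (if s' p.1 = p.2 then 1 else 0)

lemma cnt_nonneg {n : ℕ} [DecidableEq V] (s s' : Fin n → V) (p : Fin n × V) :
    0 ≤ cnt s s' p := by
  unfold cnt; positivity

lemma exp_moment_pair (h : IsEnvironment μ ω) (x : V) {β : ℝ} (hβ : 0 ≤ β) {n : ℕ}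
    (s s' : Fin n → V) [DecidableEq V] :
    ∫⁻ a, ENNReal.ofReal (Real.exp (β * ∑ i : Fin n, ω i (s i) a)) *
        ENNReal.ofReal (Real.exp (β * ∑ i : Fin n, ω i (s' i) a)) ∂μ =
      ∏ i : Fin n, ENNReal.ofReal (if s i = s' i then mgf (ω 0 x) μ (2 * β)
        else mgf (ω 0 x) μ β ^ 2) := by
  classical
  set T : Finset V := Finset.image s Finset.univ ∪ Finset.image s' Finset.univ with hT
  set X : Fin n × V → Ω → ℝ := fun p a => cnt s s' p * ω p.1 p.2 a with hX
  have hindep : iIndepFun X μ := by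
    have h1 : iIndepFun (fun p : Fin n × V => ω p.1 p.2) μ := by
      have := h.indep.precomp (g := fun p : Fin n × V => ((p.1 : ℕ), p.2)) (by
        intro p q hpq
        simp only [Prod.mk.injEq] at hpq
        exact Prod.ext (Fin.ext hpq.1) hpq.2)
      exact this
    exact h1.comp (fun p r => cnt s s' p * r) (fun p => by fun_prop)
  have hmeas : ∀ p, Measurable (X p) := fun p => (h.measurable _ _).const_mul _
  have hint : ∀ p, Integrable (fun a => Real.exp (β * X p a)) μ := by
    intro p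
    have := h.integrable_exp (t := β * cnt s s' p)
      (mul_nonneg hβ (cnt_nonneg s s' p)) p.1 p.2
    refine this.congr (Filter.Eventually.of_forall fun a => ?_)
    simp only [hX]
    ring_nf
  have hsum : ∀ a, (∑ p ∈ (Finset.univ : Finset (Fin n)) ×ˢ T, X p) a =
      (∑ i : Fin n, ω i (s i) a) + ∑ i : Fin n, ω i (s' i) a := by
    intro a
    rw [Finset.sum_apply, Finset.sum_product, ← Finset.sum_add_distrib]
    refine Finset.sum_congr rfl fun i _ => ?_
    simp only [hX, cnt, add_mul, Finset.sum_add_distrib]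
    congr 1
    · rw [Finset.sum_eq_single (s i)]
      · simp
      · intro b _ hb; rw [if_neg (Ne.symm hb)]; simp
      · intro hns; exact absurd (by simp [hT]) hns
    · rw [Finset.sum_eq_single (s' i)]
      · simp
      · intro b _ hb; rw [if_neg (Ne.symm hb)]; simp
      · intro hns; exact absurd (by simp [hT]) hns
  have h1 : ∫⁻ a, ENNReal.ofReal (Real.exp (β * ∑ i : Fin n, ω i (s i) a)) *
        ENNReal.ofReal (Real.exp (β * ∑ i : Fin n, ω i (s' i) a)) ∂μ =
      ∫⁻ a, ENNReal.ofReal (Real.exp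
        (β * (∑ p ∈ (Finset.univ : Finset (Fin n)) ×ˢ T, X p) a)) ∂μ := by
    refine lintegral_congr fun a => ?_
    rw [← ENNReal.ofReal_mul (Real.exp_pos _).le, ← Real.exp_add, hsum a]
    ring_nf
  rw [h1, ← ofReal_integral_eq_lintegral_ofReal
    (hindep.integrable_exp_mul_sum hmeas fun i _ => hint i)
    (Filter.Eventually.of_forall fun a => (Real.exp_pos _).le)]
  have h2 : ∫ a, Real.exp (β * (∑ p ∈ (Finset.univ : Finset (Fin n)) ×ˢ T, X p) a) ∂μ =
      mgf (∑ p ∈ (Finset.univ : Finset (Fin n)) ×ˢ T, X p) μ β := rfl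
  rw [h2, hindep.mgf_sum hmeas]
  have h3 : ∀ p, mgf (X p) μ β = mgf (ω 0 x) μ (cnt s s' p * β) := by
    intro p
    simp only [hX]
    rw [mgf_const_mul]
    exact mgf_congr_of_identDistrib _ _ (h.ident _ _ _ _) _
  simp_rw [h3]
  rw [Finset.prod_product, ENNReal.ofReal_prod_of_nonneg]
  swap
  · intro i _
    exact Finset.prod_nonneg fun v _ => mgf_nonneg
  refine Finset.prod_congr rfl fun i _ => ?_
  congr 1
  by_cases hs : s i = s' i
  · rw [if_pos hs, Finset.prod_eq_single (s i)]
    · simp only [cnt, hs, if_true]; norm_num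
    · intro b _ hb
      simp only [cnt, ← hs, if_neg (Ne.symm hb)]
      simp
    · intro hns; exact absurd (by simp [hT]) hns
  · rw [if_neg hs]
    have hsub : ({s i, s' i} : Finset V) ⊆ T := by
      intro v hv
      simp only [Finset.mem_insert, Finset.mem_singleton] at hv
      rcases hv with rfl | rfl <;> simp [hT]
    rw [← Finset.prod_subset hsub]
    · rw [Finset.prod_pair hs]
      simp only [cnt, if_true, if_neg hs, if_neg (Ne.symm hs)]
      ring_nf
    · intro v _ hv
      simp only [Finset.mem_insert, Finset.mem_singleton, not_or] at hv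
      simp only [cnt, if_neg (Ne.symm hv.1), if_neg (Ne.symm hv.2)]
      simp

lemma second_moment [Countable V] (P : V → PMF V) (h : IsEnvironment μ ω) (x : V) {β : ℝ}
    (hβ : 0 ≤ β) (n : ℕ) [DecidableEq V] :
    ∫⁻ a, (W P μ ω n x β a) ^ 2 ∂μ = pairSum P
      (fun y y' => ENNReal.ofReal (if y = y' then mgf (ω 0 x) μ (2 * β) / mgf (ω 0 x) μ β ^ 2
        else 1)) n x x := by
  have hm : 0 < mgf (ω 0 x) μ β := mgf_pos (h.integrable_exp hβ _ _)
  set c : ℝ≥0∞ := ENNReal.ofReal (Real.exp (-(n * cgf (ω 0 x) μ β))) with hc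
  have hc2 : c ^ 2 = ENNReal.ofReal ((mgf (ω 0 x) μ β ^ 2)⁻¹ ^ n) := by
    rw [hc, ← ENNReal.ofReal_pow (Real.exp_pos _).le, ← Real.exp_nat_mul]
    congr 1
    rw [← exp_cgf (h.integrable_exp hβ 0 x), ← Real.exp_nat_mul, ← Real.exp_neg,
      ← Real.exp_nat_mul]
    congr 1
    push_cast
    ring
  have hmeas : ∀ s : Fin n → V, Measurable (fun a =>
      ENNReal.ofReal (Real.exp (β * ∑ i : Fin n, ω i (s i) a))) := by
    intro s
    refine ENNReal.measurable_ofReal.comp (Real.measurable_exp.comp ?_)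
    refine Measurable.const_mul ?_ _
    exact Finset.measurable_sum _ fun i _ => h.measurable _ _
  have h1 : ∀ a, (W P μ ω n x β a) ^ 2 = ∑' s : Fin n → V, ∑' s' : Fin n → V,
      (pathProb P x s * pathProb P x s' * c ^ 2) *
        (ENNReal.ofReal (Real.exp (β * ∑ i : Fin n, ω i (s i) a)) *
        ENNReal.ofReal (Real.exp (β * ∑ i : Fin n, ω i (s' i) a))) := by
    intro a
    unfold W Z
    rw [← hc, mul_pow, sq (∑' s : Fin n → V, _), ← ENNReal.tsum_mul_right,
      ← ENNReal.tsum_mul_right]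
    refine tsum_congr fun s => ?_
    rw [← ENNReal.tsum_mul_left, ← ENNReal.tsum_mul_right]
    refine tsum_congr fun s' => ?_
    ring
  simp_rw [h1]
  rw [lintegral_tsum]
  swap
  · intro s
    refine Measurable.aemeasurable ?_
    refine Measurable.tsum fun s' => ?_
    exact ((hmeas s).mul (hmeas s')).const_mul _
  unfold pairSum
  refine tsum_congr fun s => ?_
  rw [lintegral_tsum]
  swap
  · intro s'
    exact (((hmeas s).mul (hmeas s')).const_mul _).aemeasurable
  refine tsum_congr fun s' => ?_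
  have hmm : Measurable (fun a =>
      ENNReal.ofReal (Real.exp (β * ∑ i : Fin n, ω i (s i) a)) *
        ENNReal.ofReal (Real.exp (β * ∑ i : Fin n, ω i (s' i) a))) := (hmeas s).mul (hmeas s')
  rw [lintegral_const_mul _ hmm, exp_moment_pair h x hβ s s', mul_assoc]
  congr 1
  rw [hc2, ← ENNReal.ofReal_prod_of_nonneg, ← ENNReal.ofReal_mul (by positivity)]
  swap
  · intro i _
    split_ifs
    · exact mgf_nonneg
    · positivity
  rw [← ENNReal.ofReal_prod_of_nonneg]
  swap
  · intro i _
    split_ifs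
    · exact div_nonneg mgf_nonneg (by positivity)
    · positivity
  congr 1
  have : ((mgf (ω 0 x) μ β ^ 2)⁻¹) ^ n = ∏ _i : Fin n, (mgf (ω 0 x) μ β ^ 2)⁻¹ := by simp
  rw [this, ← Finset.prod_mul_distrib]
  refine Finset.prod_congr rfl fun i _ => ?_
  split_ifs
  · field_simp
  · field_simp


lemma one_le_mgf (h : IsEnvironment μ ω) (x : V) {β : ℝ} (hβ : 0 ≤ β) :
    1 ≤ mgf (ω 0 x) μ β := by
  have hi : Integrable (ω 0 x) μ := (h.memLp 0 x).integrable (by norm_num)
  have h1 : ∫ a, (β * ω 0 x a + 1) ∂μ = 1 := by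
    rw [integral_add (hi.const_mul _) (integrable_const _), integral_const_mul, h.mean]
    simp
  rw [← h1]
  unfold mgf
  refine integral_mono ((hi.const_mul _).add (integrable_const _)) (h.integrable_exp hβ _ _) ?_
  intro a
  exact Real.add_one_le_exp _

lemma mgf_le (h : IsEnvironment μ ω) (x : V) {t : ℝ} (ht : 0 ≤ t) (ht1 : t ≤ 1) :
    mgf (ω 0 x) μ t ≤ 1 + t * (mgf (ω 0 x) μ 1 - 1) := by
  have hi1 : Integrable (fun a => Real.exp (1 * ω 0 x a)) μ := h.integrable_exp zero_le_one _ _
  have h1 : 1 + t * (mgf (ω 0 x) μ 1 - 1) =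
      ∫ a, ((1 - t) + t * Real.exp (1 * ω 0 x a)) ∂μ := by
    rw [integral_add (integrable_const _) (hi1.const_mul _), integral_const_mul]
    simp only [integral_const, probReal_univ, smul_eq_mul, mgf]
    ring
  rw [h1]
  unfold mgf
  refine integral_mono (h.integrable_exp ht _ _) ((integrable_const _).add (hi1.const_mul _)) ?_
  intro a
  have := convexOn_exp.2 (Set.mem_univ (0 : ℝ)) (Set.mem_univ (ω 0 x a))
    (sub_nonneg.2 ht1) ht (by ring)
  simp only [smul_eq_mul, mul_zero, zero_add, Real.exp_zero, mul_one] at this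
  simpa using this

lemma beta2_pos [Countable V] (P : V → PMF V) (h : IsEnvironment μ ω) (x : V) [DecidableEq V]
    (κ : ℝ) (hκ : 0 < κ) (g : V → V → ℝ≥0∞) (g1 : ∀ x x', 1 ≤ g x x') (gx : g x x < ∞)
    (hg : ∀ x x', ∑' y : V, ∑' y' : V, P x y * P x' y' *
      ENNReal.ofReal (if y = y' then 1 + κ else 1) * g y y' ≤ g x x') :
    0 < beta2 P μ ω x := by
  obtain ⟨β, hβ0, hβ1, hβ2⟩ : ∃ β : ℝ, 0 < β ∧ 2 * β ≤ 1 ∧
      2 * β * (mgf (ω 0 x) μ 1 - 1) ≤ κ := by
    have hm : 0 ≤ mgf (ω 0 x) μ 1 - 1 := sub_nonneg.2 (one_le_mgf h x zero_le_one)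
    set D := mgf (ω 0 x) μ 1 - 1
    refine ⟨min (1 / 2) (κ / (2 * (D + 1))), by positivity, ?_, ?_⟩
    · have := min_le_left (1 / 2 : ℝ) (κ / (2 * (D + 1)))
      linarith
    · have h2 := min_le_right (1 / 2 : ℝ) (κ / (2 * (D + 1)))
      calc 2 * min (1 / 2) (κ / (2 * (D + 1))) * D ≤ 2 * (κ / (2 * (D + 1))) * D := by gcongr
        _ = κ * (D / (D + 1)) := by field_simp
        _ ≤ κ * 1 := by
            gcongr
            rw [div_le_one (by positivity)]
            linarith
        _ = κ := mul_one _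
  have hρ : mgf (ω 0 x) μ (2 * β) / mgf (ω 0 x) μ β ^ 2 ≤ 1 + κ := by
    have h1 := one_le_mgf h x hβ0.le
    have h2 := mgf_le h x (t := 2 * β) (by positivity) hβ1
    rw [div_le_iff₀ (by positivity)]
    nlinarith [sq_nonneg (mgf (ω 0 x) μ β - 1)]
  refine lt_of_lt_of_le (b := ENNReal.ofReal β) (by simpa using hβ0) ?_
  refine le_sSup ⟨β.toNNReal, rfl, ?_⟩
  · refine lt_of_le_of_lt (iSup_le fun n => ?_) gx
    rw [Real.coe_toNNReal β hβ0.le]
    have := second_moment P h x hβ0.le n
    rw [this]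
    refine pairSum_le P _ g g1 (fun x x' => le_trans ?_ (hg x x')) n x x
    refine ENNReal.tsum_le_tsum fun y => ENNReal.tsum_le_tsum fun y' => ?_
    gcongr
    split_ifs
    · exact hρ
    · exact le_rfl

end moment


section chain

/-- trap scale -/
@[irreducible] def D (i : ℕ) : ℕ := 1024 ^ ((i + 1) ^ 2)

/-- State space: `⟨i, none⟩` is the `i`-th vertex of the backbone half-line, and `⟨i, some a⟩`
are the vertices of a complete graph attached to it. -/
abbrev St : Type := Σ i : ℕ, Option (Fin (D i ^ 2 + 1))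

/-- left neighbour on the half line (reflected at 0). -/
def pr (i : ℕ) : ℕ := if i = 0 then 1 else i - 1

/-- exit probability from trap `i`. -/
noncomputable def dl (i : ℕ) : ℝ := 1 / (D i : ℝ)

/-- real transition probabilities -/
noncomputable def pR : St → St → ℝ
  | ⟨i, none⟩, ⟨j, none⟩ => (if j = i + 1 then 1 / 4 else 0) + (if j = pr i then 1 / 4 else 0)
  | ⟨i, none⟩, ⟨j, some _⟩ => if j = i then 1 / (2 * ((D i : ℝ) ^ 2 + 1)) else 0
  | ⟨i, some _⟩, ⟨j, none⟩ => if j = i then dl i else 0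
  | ⟨i, some a⟩, ⟨j, some b⟩ => if j = i ∧ (b : ℕ) ≠ a then (1 - dl i) / (D i : ℝ) ^ 2 else 0

/-- one-step expectation -/
noncomputable def Ex : St → (St → ℝ) → ℝ
  | ⟨i, none⟩, F => 1 / 4 * F ⟨i + 1, none⟩ + 1 / 4 * F ⟨pr i, none⟩ +
      1 / (2 * ((D i : ℝ) ^ 2 + 1)) * ∑ a, F ⟨i, some a⟩
  | ⟨i, some a⟩, F => dl i * F ⟨i, none⟩ +
      (1 - dl i) / (D i : ℝ) ^ 2 * ∑ b ∈ Finset.univ.erase a, F ⟨i, some b⟩

lemma D_pos (i : ℕ) : 0 < (D i : ℝ) := by unfold D; positivity

lemma D_ge (i : ℕ) : (1024 : ℝ) ≤ D i := by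
  unfold D
  push_cast
  calc (1024 : ℝ) = 1024 ^ 1 := by norm_num
    _ ≤ 1024 ^ ((i + 1) ^ 2) := by
      apply pow_le_pow_right₀ (by norm_num)
      exact Nat.one_le_iff_ne_zero.2 (by positivity)

lemma dl_pos (i : ℕ) : 0 < dl i := by unfold dl; have := D_pos i; positivity

lemma dl_le (i : ℕ) : dl i ≤ 1 / 1024 := by
  unfold dl
  exact one_div_le_one_div_of_le (by norm_num) (D_ge i)

lemma pR_nonneg (x y : St) : 0 ≤ pR x y := by
  obtain ⟨i, _ | a⟩ := x <;> obtain ⟨j, _ | b⟩ := y <;> simp only [pR]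
  · positivity
  · positivity
  · have := dl_pos i
    positivity
  · have := dl_pos i
    have := dl_le i
    have h : 0 ≤ 1 - dl i := by linarith
    split_ifs
    · positivity
    · exact le_rfl

lemma tsum_pR (x : St) (F : St → ℝ) (hF : ∀ y, 0 ≤ F y) :
    ∑' y, ENNReal.ofReal (pR x y) * ENNReal.ofReal (F y) = ENNReal.ofReal (Ex x F) := by
  have hD : ∀ i, 0 < (D i : ℝ) := D_pos
  have hdl := dl_pos
  have hdl' : ∀ i, 0 ≤ 1 - dl i := fun i => by have := dl_le i; linarith
  have key : ∑' y, ENNReal.ofReal (pR x y) * ENNReal.ofReal (F y) =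
      ∑' j, (ENNReal.ofReal (pR x ⟨j, none⟩ * F ⟨j, none⟩) +
        ∑ b, ENNReal.ofReal (pR x ⟨j, some b⟩ * F ⟨j, some b⟩)) := by
    rw [ENNReal.tsum_sigma']
    refine tsum_congr fun j => ?_
    rw [tsum_fintype, Fintype.sum_option]
    simp_rw [← ENNReal.ofReal_mul (pR_nonneg x _)]
  rw [key, ENNReal.tsum_add]
  obtain ⟨i, _ | a⟩ := x
  · simp only [Ex]
    rw [ENNReal.ofReal_add (by have := hF ⟨i + 1, none⟩; have := hF ⟨pr i, none⟩; positivity)
      (mul_nonneg (by positivity) (Finset.sum_nonneg fun a _ => hF _))]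
    congr 1
    · have : ∀ j : ℕ, ENNReal.ofReal (pR ⟨i, none⟩ ⟨j, none⟩ * F ⟨j, none⟩) =
          (if j = i + 1 then ENNReal.ofReal (1 / 4 * F ⟨i + 1, none⟩) else 0) +
          (if j = pr i then ENNReal.ofReal (1 / 4 * F ⟨pr i, none⟩) else 0) := by
        intro j
        simp only [pR]
        rw [add_mul, ENNReal.ofReal_add]
        · congr 1
          · split_ifs with h
            · subst h; rfl
            · simp
          · split_ifs with h
            · subst h; rfl
            · simp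
        · split_ifs
          · have := hF ⟨j, none⟩; positivity
          · simp
        · split_ifs
          · have := hF ⟨j, none⟩; positivity
          · simp
      simp_rw [this]
      rw [ENNReal.tsum_add, tsum_ite_eq, tsum_ite_eq, ENNReal.ofReal_add]
      · have := hF ⟨i + 1, none⟩; positivity
      · have := hF ⟨pr i, none⟩; positivity
    · rw [tsum_eq_single i]
      · simp only [pR, if_true]
        rw [← ENNReal.ofReal_sum_of_nonneg, Finset.mul_sum]
        intro b _
        exact mul_nonneg (by positivity) (hF _)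
      · intro j hj
        simp only [pR, if_neg hj]
        simp
  · simp only [Ex]
    rw [ENNReal.ofReal_add (mul_nonneg (hdl i).le (hF _))
      (mul_nonneg (div_nonneg (hdl' i) (by positivity)) (Finset.sum_nonneg fun a _ => hF _))]
    congr 1
    · rw [tsum_eq_single i]
      · simp only [pR, if_true]
      · intro j hj
        simp only [pR, if_neg hj]
        simp
    · rw [tsum_eq_single i]
      · rw [← Finset.add_sum_erase _ _ (Finset.mem_univ a)]
        simp only [pR, true_and, ne_eq, not_true_eq_false, if_false, zero_mul,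
          ENNReal.ofReal_zero, zero_add]
        rw [Finset.mul_sum, ENNReal.ofReal_sum_of_nonneg]
        · refine Finset.sum_congr rfl fun b hb => ?_
          rw [if_pos]
          intro h
          exact (Finset.ne_of_mem_erase hb) (Fin.ext h)
        · intro b _
          exact mul_nonneg (div_nonneg (hdl' i) (by positivity)) (hF _)
      · intro j hj
        simp only [pR, hj, false_and, if_false]
        simp


/-- small scale sequence -/
noncomputable def ee (j : ℕ) : ℝ := (1 / 1024) ^ (2 * j + 1)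

/-- slowly decreasing levels -/
noncomputable def HH (j : ℕ) : ℝ := 11 / 10 + 3 / 10 * (1 / 2) ^ j

/-- potential of a backbone walker at `i` when the other one is in trap `j` -/
noncomputable def Bf (i j : ℕ) : ℝ := HH j - 12 * ee j * ((min i (j + 1) : ℕ) : ℝ) ^ 2

/-- potential when both walkers are in traps -/
noncomputable def Cf (i j : ℕ) : ℝ :=
  if i < j then Bf i j + 4 * (dl j / dl i) else
    if j < i then Bf j i + 4 * (dl i / dl j) else Bf j j + 6 * dl j

/-- pair potential -/
noncomputable def gR : St → St → ℝ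
  | ⟨_, none⟩, ⟨_, none⟩ => 2
  | ⟨i, none⟩, ⟨j, some _⟩ => Bf i j
  | ⟨i, some _⟩, ⟨j, none⟩ => Bf j i
  | ⟨i, some _⟩, ⟨j, some _⟩ => Cf i j

lemma Cf_symm (i j : ℕ) : Cf i j = Cf j i := by
  unfold Cf
  rcases lt_trichotomy i j with h | h | h
  · simp [h, not_lt.2 h.le]
  · subst h; simp
  · simp [h, not_lt.2 h.le]

lemma ee_pos (j : ℕ) : 0 < ee j := by unfold ee; positivity

lemma dl_le_ee (j : ℕ) : dl j ≤ ee j := by
  unfold dl ee D
  push_cast
  rw [one_div_pow]
  refine one_div_le_one_div_of_le (by positivity) ?_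
  exact pow_le_pow_right₀ (by norm_num) (by nlinarith)

lemma dl_div_le (i j : ℕ) (h : i < j) : dl j / dl i ≤ ee j := by
  unfold dl ee D
  push_cast
  have h1 : (1 : ℝ) / 1024 ^ (j + 1) ^ 2 / (1 / 1024 ^ (i + 1) ^ 2) =
      1024 ^ (i + 1) ^ 2 / 1024 ^ (j + 1) ^ 2 := by
    rw [div_div_eq_mul_div, div_one, one_div_mul_eq_div]
  rw [h1, one_div_pow, div_le_div_iff₀ (by positivity) (by positivity), one_mul, ← pow_add]
  exact pow_le_pow_right₀ (by norm_num) (by nlinarith)

lemma ee_sq (j : ℕ) : ee j * ((j : ℝ) + 1) ^ 2 ≤ 1 / 1024 * (1 / 2) ^ j := by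
  have h1 : ((j : ℝ) + 1) ^ 2 ≤ 4 ^ j := by
    have h2 : (j : ℝ) + 1 ≤ 2 ^ j := by
      have := Nat.lt_two_pow_self (n := j)
      exact_mod_cast this
    calc ((j : ℝ) + 1) ^ 2 ≤ (2 ^ j) ^ 2 := by gcongr
      _ = 4 ^ j := by rw [← pow_mul, mul_comm, pow_mul]; norm_num
  unfold ee
  calc (1 / 1024 : ℝ) ^ (2 * j + 1) * ((j : ℝ) + 1) ^ 2 ≤ (1 / 1024 : ℝ) ^ (2 * j + 1) * 4 ^ j := by
        gcongr
    _ = 1 / 1024 * (((1 / 1024) ^ 2) * 4) ^ j := by
        rw [pow_succ, pow_mul, mul_pow]; ring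
    _ ≤ 1 / 1024 * (1 / 2) ^ j := by
        gcongr
        norm_num

lemma ee_le (j : ℕ) : ee j ≤ 1 / 1024 * (1 / 2) ^ j := by
  refine le_trans ?_ (ee_sq j)
  have := ee_pos j
  have h : (1 : ℝ) ≤ ((j : ℝ) + 1) ^ 2 := by
    have : (0 : ℝ) ≤ j := by positivity
    nlinarith
  nlinarith

lemma ee_anti {i j : ℕ} (h : i ≤ j) : ee j ≤ ee i := by
  unfold ee
  exact pow_le_pow_of_le_one (by norm_num) (by norm_num) (by omega)

lemma half_pow_le (j : ℕ) : ((1 : ℝ) / 2) ^ j ≤ 1 := pow_le_one₀ (by norm_num) (by norm_num)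

lemma HH_le (j : ℕ) : HH j ≤ 14 / 10 := by
  unfold HH
  have := half_pow_le j
  linarith

lemma HH_anti {i j : ℕ} (h : i ≤ j) : HH j ≤ HH i := by
  unfold HH
  have : ((1 : ℝ) / 2) ^ j ≤ (1 / 2) ^ i := pow_le_pow_of_le_one (by norm_num) (by norm_num) h
  linarith

lemma HH_succ (j : ℕ) : HH (j + 1) = HH j - 3 / 20 * (1 / 2) ^ j := by
  unfold HH
  rw [pow_succ]; ring

lemma Bf_le_HH (i j : ℕ) : Bf i j ≤ HH j := by
  unfold Bf
  have := ee_pos j
  have h : 0 ≤ 12 * ee j * ((min i (j + 1) : ℕ) : ℝ) ^ 2 := by positivity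
  linarith

lemma Bf_ge (i j : ℕ) : HH j - 12 * (ee j * ((j : ℝ) + 1) ^ 2) ≤ Bf i j := by
  unfold Bf
  have h0 := ee_pos j
  have h : ((min i (j + 1) : ℕ) : ℝ) ≤ (j : ℝ) + 1 := by
    have : min i (j + 1) ≤ j + 1 := min_le_right _ _
    exact_mod_cast this
  have h2 : ((min i (j + 1) : ℕ) : ℝ) ^ 2 ≤ ((j : ℝ) + 1) ^ 2 := by gcongr
  nlinarith

lemma Bf_one_le (i j : ℕ) : 1 ≤ Bf i j := by
  refine le_trans ?_ (Bf_ge i j)
  have := ee_sq j
  have h := half_pow_le j
  unfold HH
  have : 0 < ((1 : ℝ) / 2) ^ j := by positivity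
  linarith

lemma Bf_le (i j : ℕ) : Bf i j ≤ 14 / 10 := (Bf_le_HH i j).trans (HH_le j)

lemma Cf_ge (i j : ℕ) : 1 ≤ Cf i j := by
  unfold Cf
  have h1 := dl_pos i
  have h2 := dl_pos j
  split_ifs
  · have := Bf_one_le i j
    have : 0 < dl j / dl i := div_pos h2 h1
    linarith
  · have := Bf_one_le j i
    have : 0 < dl i / dl j := div_pos h1 h2
    linarith
  · have := Bf_one_le j j
    linarith

lemma Cf_le (i j : ℕ) : Cf i j ≤ 3 / 2 := by
  unfold Cf
  have h1 := dl_pos i
  have h2 := dl_pos j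
  have h3 := half_pow_le i
  have h4 := half_pow_le j
  have h5 := ee_le i
  have h6 := ee_le j
  split_ifs with h h'
  · have := Bf_le i j
    have := dl_div_le i j h
    linarith
  · have := Bf_le j i
    have := dl_div_le j i h'
    linarith
  · have := Bf_le j j
    have := dl_le_ee j
    linarith

/-- the key inequality: superharmonicity when one walker sits in trap `j`. -/
lemma key_ineq (i j : ℕ) :
    1 / 4 * Bf (i + 1) j + 1 / 4 * Bf (pr i) j + 1 / 2 * Cf i j + 2 * dl j ≤ Bf i j := by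
  have hej := ee_pos j
  have hdj := dl_pos j
  have hdej := dl_le_ee j
  rcases le_or_gt i j with hij | hij
  · -- quadratic regime
    have e1 : Bf (i + 1) j = HH j - 12 * ee j * ((i : ℝ) + 1) ^ 2 := by
      unfold Bf
      rw [min_eq_left (by omega)]
      push_cast; ring
    have e0 : Bf i j = HH j - 12 * ee j * (i : ℝ) ^ 2 := by
      unfold Bf
      rw [min_eq_left (by omega)]
    have e2 : Bf (pr i) j = HH j - 12 * ee j * ((i : ℝ) - 1) ^ 2 := by
      unfold Bf pr
      split_ifs with h0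
      · subst h0
        rw [min_eq_left (by omega)]
        norm_num
      · rw [min_eq_left (by omega)]
        have : ((i - 1 : ℕ) : ℝ) = (i : ℝ) - 1 := by
          rw [Nat.cast_sub (by omega)]; norm_num
        rw [this]
    have hC : Cf i j ≤ Bf i j + 6 * ee j := by
      unfold Cf
      rcases hij.lt_or_eq with h | h
      · rw [if_pos h]
        have := dl_div_le i j h
        linarith
      · subst h
        simp only [lt_irrefl, if_false]
        linarith
    rw [e1, e2]
    rw [e0] at hC ⊢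
    nlinarith
  · -- flat regime
    have e0 : Bf i j = HH j - 12 * ee j * ((j : ℝ) + 1) ^ 2 := by
      unfold Bf
      rw [min_eq_right (by omega)]
      push_cast; ring
    have hC : Cf i j ≤ HH (j + 1) + 4 * ee j := by
      unfold Cf
      rw [if_neg (by omega), if_pos hij]
      have h1 := dl_div_le j i hij
      have h2 := ee_anti (show j ≤ i by omega)
      have h3 := Bf_le_HH j i
      have h4 := HH_anti (show j + 1 ≤ i by omega)
      linarith
    have h1 := Bf_le_HH (i + 1) j
    have h2 := Bf_le_HH (pr i) j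
    have h3 := ee_sq j
    have h4 := ee_le j
    have h5 := HH_succ j
    have h6 : 0 < ((1 : ℝ) / 2) ^ j := by positivity
    rw [e0]
    linarith


lemma Ex_add (x : St) (F G : St → ℝ) : Ex x (fun y => F y + G y) = Ex x F + Ex x G := by
  obtain ⟨i, _ | a⟩ := x <;> simp only [Ex, Finset.sum_add_distrib] <;> ring

lemma Ex_const_mul (x : St) (c : ℝ) (F : St → ℝ) : Ex x (fun y => c * F y) = c * Ex x F := by
  obtain ⟨i, _ | a⟩ := x <;> simp only [Ex, ← Finset.mul_sum] <;> ring

lemma Ex_mono (x : St) (F G : St → ℝ) (h : ∀ y, F y ≤ G y) : Ex x F ≤ Ex x G := by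
  obtain ⟨i, _ | a⟩ := x <;> simp only [Ex]
  · have h1 := h ⟨i + 1, none⟩
    have h2 := h ⟨pr i, none⟩
    have h3 : ∑ a, F ⟨i, some a⟩ ≤ ∑ a, G ⟨i, some a⟩ := Finset.sum_le_sum fun a _ => h _
    have h4 : 1 / (2 * ((D i : ℝ) ^ 2 + 1)) * ∑ a, F ⟨i, some a⟩ ≤
      1 / (2 * ((D i : ℝ) ^ 2 + 1)) * ∑ a, G ⟨i, some a⟩ :=
        mul_le_mul_of_nonneg_left h3 (by positivity)
    linarith
  · have h1 := h ⟨i, none⟩
    have hd := dl_pos i
    have hd' := dl_le i
    have hD := D_pos i
    have h3 : ∑ b ∈ Finset.univ.erase a, F ⟨i, some b⟩ ≤ ∑ b ∈ Finset.univ.erase a, G ⟨i, some b⟩ :=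
      Finset.sum_le_sum fun a _ => h _
    have h4 : (1 - dl i) / (D i : ℝ) ^ 2 * ∑ b ∈ Finset.univ.erase a, F ⟨i, some b⟩ ≤
      (1 - dl i) / (D i : ℝ) ^ 2 * ∑ b ∈ Finset.univ.erase a, G ⟨i, some b⟩ :=
        mul_le_mul_of_nonneg_left h3 (div_nonneg (by linarith) (by positivity))
    have h5 : dl i * F ⟨i, none⟩ ≤ dl i * G ⟨i, none⟩ := mul_le_mul_of_nonneg_left h1 hd.le
    linarith

lemma Ex_none (i : ℕ) (F : St → ℝ) (u v : ℝ) (hu : F ⟨i + 1, none⟩ = u) (w : ℝ)
    (hw : F ⟨pr i, none⟩ = w) (hv : ∀ a, F ⟨i, some a⟩ = v) :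
    Ex ⟨i, none⟩ F = 1 / 4 * u + 1 / 4 * w + 1 / 2 * v := by
  have hD := D_pos i
  simp only [Ex, hu, hw, hv, Finset.sum_const, Finset.card_univ, Fintype.card_fin, nsmul_eq_mul]
  push_cast
  field_simp

lemma Ex_some (i : ℕ) (a : Fin (D i ^ 2 + 1)) (F : St → ℝ) (u v : ℝ) (hu : F ⟨i, none⟩ = u)
    (hv : ∀ b, F ⟨i, some b⟩ = v) :
    Ex ⟨i, some a⟩ F = dl i * u + (1 - dl i) * v := by
  have hD := D_pos i
  simp only [Ex, hu, hv, Finset.sum_const, Finset.card_erase_of_mem (Finset.mem_univ a),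
    Finset.card_univ, Fintype.card_fin, nsmul_eq_mul, Nat.add_sub_cancel]
  push_cast
  field_simp

lemma Ex_nonneg (x : St) (F : St → ℝ) (h : ∀ y, 0 ≤ F y) : 0 ≤ Ex x F := by
  have h0 := Ex_mono x (fun _ => 0 * (0 : ℝ)) F (fun y => by simpa using h y)
  rw [Ex_const_mul] at h0
  simpa using h0

lemma Ex_ind (x y : St) : Ex x (fun y' => if y = y' then 1 else 0) = pR x y := by
  have h := tsum_pR x (fun y' => if y = y' then 1 else 0) (fun y' => by positivity)
  rw [tsum_eq_single y] at h
  · simp only [if_true, ENNReal.ofReal_one, mul_one] at h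
    have h1 := (ENNReal.ofReal_eq_ofReal_iff (pR_nonneg x y)
      (Ex_nonneg x _ (fun y' => by positivity))).1 h
    exact h1.symm
  · intro z hz
    rw [if_neg (Ne.symm hz)]
    simp

lemma gR_le (x y : St) : gR x y ≤ 2 := by
  obtain ⟨i, _ | a⟩ := x <;> obtain ⟨j, _ | b⟩ := y <;> simp only [gR]
  · have := Bf_le j i; exact le_rfl
  · have := Bf_le i j; linarith
  · have := Bf_le j i; linarith
  · have := Cf_le i j; linarith

lemma gR_ge (x y : St) : 1 ≤ gR x y := by
  obtain ⟨i, _ | a⟩ := x <;> obtain ⟨j, _ | b⟩ := y <;> simp only [gR]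
  · norm_num
  · exact Bf_one_le i j
  · exact Bf_one_le j i
  · exact Cf_ge i j

lemma dl_sq (i : ℕ) : 1 / (D i : ℝ) ^ 2 = dl i ^ 2 := by
  unfold dl; rw [one_div_pow]

/-- bound on one-step collision probabilities -/
noncomputable def col : St → St → ℝ
  | ⟨_, none⟩, ⟨_, none⟩ => 1
  | ⟨_, none⟩, ⟨j, some _⟩ => dl j
  | ⟨i, some _⟩, ⟨_, none⟩ => dl i
  | ⟨i, some _⟩, ⟨j, some _⟩ => if i = j then 2 * dl j ^ 2 else 0

lemma col_bound (x x' : St) : Ex x (fun y => pR x' y) ≤ col x x' := by
  obtain ⟨i, _ | a⟩ := x <;> obtain ⟨j, _ | b⟩ := x' <;> simp only [col]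
  · -- both on the backbone
    have h : ∀ y, pR ⟨j, none⟩ y ≤ 1 := by
      rintro ⟨k, _ | c⟩ <;> simp only [pR]
      · split_ifs <;> norm_num
      · have := D_pos j
        split_ifs
        · rw [div_le_one (by positivity)]
          nlinarith
        · norm_num
    have h1 := Ex_mono ⟨i, none⟩ (fun y => pR ⟨j, none⟩ y) (fun _ => 1) h
    refine h1.trans ?_
    rw [Ex_none i (fun _ => 1) 1 1 rfl 1 rfl (fun _ => rfl)]
    norm_num
  · -- x backbone, x' trap
    have hd := dl_pos j
    have hd' := dl_le j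
    have hD := D_pos j
    have h := Ex_mono ⟨i, none⟩ (fun y => pR ⟨j, some b⟩ y)
      (fun y => if y.2.isNone then dl j else dl j ^ 2) (by
        rintro ⟨k, _ | c⟩ <;> simp only [pR, Option.isNone_none, Option.isNone_some, if_true,
          Bool.false_eq_true, if_false]
        · split_ifs
          · exact le_rfl
          · exact hd.le
        · rw [← dl_sq j]
          split_ifs
          · gcongr; linarith
          · positivity)
    refine h.trans ?_
    rw [Ex_none i _ (dl j) (dl j ^ 2) (by simp) (dl j) (by simp) (by simp)]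
    nlinarith
  · -- x trap, x' backbone
    have hd := dl_pos i
    have hd' := dl_le i
    have hD := D_pos i
    rw [show Ex ⟨i, some a⟩ (fun y => pR ⟨j, none⟩ y) = dl i * pR ⟨j, none⟩ ⟨i, none⟩ +
      (1 - dl i) * (if i = j then 1 / (2 * ((D j : ℝ) ^ 2 + 1)) else 0) from
        Ex_some i a _ _ _ rfl (fun b => by simp only [pR])]
    have h1 : pR ⟨j, none⟩ ⟨i, none⟩ ≤ 1 / 2 := by
      simp only [pR]
      split_ifs <;> norm_num
    have h2 : (if i = j then 1 / (2 * ((D j : ℝ) ^ 2 + 1)) else 0) ≤ 1 / 2 * dl i ^ 2 := by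
      split_ifs with h
      · subst h
        rw [← dl_sq, one_div_mul_one_div]
        exact one_div_le_one_div_of_le (by positivity) (by nlinarith)
      · positivity
    have h3 : 0 ≤ (if i = j then 1 / (2 * ((D j : ℝ) ^ 2 + 1)) else 0) := by
      have := D_pos j
      split_ifs
      · positivity
      · exact le_rfl
    nlinarith
  · have hd := dl_pos i
    have hd' := dl_le i
    have hD := D_pos i
    by_cases hij : i = j
    · subst hij
      rw [if_pos rfl]
      have h := Ex_mono ⟨i, some a⟩ (fun y => pR ⟨i, some b⟩ y)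
        (fun y => if y.2.isNone then dl i else dl i ^ 2) (by
          rintro ⟨k, _ | c⟩ <;> simp only [pR, Option.isNone_none, Option.isNone_some, if_true,
            Bool.false_eq_true, if_false]
          · split_ifs
            · exact le_rfl
            · exact hd.le
          · rw [← dl_sq i]
            split_ifs
            · gcongr; linarith
            · positivity)
      refine h.trans ?_
      rw [Ex_some i a _ (dl i) (dl i ^ 2) (by simp) (by simp)]
      nlinarith
    · rw [if_neg hij]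
      rw [Ex_some i a _ 0 0 (by simp [pR, hij]) (by intro c; simp [pR, hij])]
      simp


/-- `E_{x,x'}` of the potential after one step, without collisions, plus collision cost. -/
lemma pair_main (x x' : St) :
    Ex x (fun y => Ex x' (fun y' => gR y y')) + 1 / 50 * col x x' ≤ gR x x' := by
  obtain ⟨i, _ | a⟩ := x <;> obtain ⟨j, _ | b⟩ := x'
  · -- both on the backbone
    have h1 : ∀ k, Ex ⟨j, none⟩ (fun y' => gR ⟨k, none⟩ y') ≤ 17 / 10 := by
      intro k
      rw [Ex_none j _ 2 (Bf k j) rfl 2 rfl (fun _ => rfl)]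
      have := Bf_le k j
      linarith
    have h2 : ∀ k c, Ex ⟨j, none⟩ (fun y' => gR ⟨k, some c⟩ y') ≤ 31 / 20 := by
      intro k c
      rw [Ex_none j _ (Bf (j + 1) k) (Cf k j) rfl (Bf (pr j) k) rfl (fun _ => rfl)]
      have := Bf_le (j + 1) k
      have := Bf_le (pr j) k
      have := Cf_le k j
      linarith
    have h3 := Ex_mono ⟨i, none⟩ (fun y => Ex ⟨j, none⟩ (fun y' => gR y y'))
      (fun y => if y.2.isNone then 17 / 10 else 31 / 20) (by
        rintro ⟨k, _ | c⟩
        · simpa using h1 k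
        · simpa using h2 k c)
    have h4 : Ex ⟨i, none⟩ (fun y => if y.2.isNone then (17 / 10 : ℝ) else 31 / 20) ≤ 17 / 10 := by
      rw [Ex_none i _ (17 / 10) (31 / 20) (by simp) (17 / 10) (by simp) (by simp)]
      norm_num
    have e5 : gR ⟨i, none⟩ ⟨j, none⟩ = 2 := rfl
    have e6 : col ⟨i, none⟩ ⟨j, none⟩ = 1 := rfl
    rw [e5, e6]
    linarith
  · -- x backbone, x' trap
    have e1 : ∀ k, Ex ⟨j, some b⟩ (fun y' => gR ⟨k, none⟩ y') = dl j * 2 + (1 - dl j) * Bf k j :=
      fun k => Ex_some j b _ _ _ rfl (fun _ => rfl)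
    have e2 : ∀ k c, Ex ⟨j, some b⟩ (fun y' => gR ⟨k, some c⟩ y') =
        dl j * Bf j k + (1 - dl j) * Cf k j :=
      fun k c => Ex_some j b _ _ _ rfl (fun _ => rfl)
    rw [Ex_none i _ _ _ (e1 (i + 1)) _ (e1 (pr i)) (fun c => e2 i c)]
    simp only [gR, col]
    have hd := dl_pos j
    have hd' := dl_le j
    have k1 := key_ineq i j
    have b1 := Bf_le j i
    have b2 := Bf_one_le (i + 1) j
    have b3 := Bf_one_le (pr i) j
    have b4 := Cf_ge i j
    have hp : 0 ≤ dl j * (1 / 4 * Bf (i + 1) j + 1 / 4 * Bf (pr i) j + 1 / 2 * Cf i j) := by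
      apply mul_nonneg hd.le; linarith
    have hq : dl j * (1 / 2 * Bf j i) ≤ dl j * (7 / 10) := by
      apply mul_le_mul_of_nonneg_left _ hd.le; linarith
    nlinarith
  · -- x trap, x' backbone
    have e1 : Ex ⟨j, none⟩ (fun y' => gR ⟨i, none⟩ y') = 1 / 4 * 2 + 1 / 4 * 2 + 1 / 2 * Bf i j :=
      Ex_none j _ 2 (Bf i j) rfl 2 rfl (fun _ => rfl)
    have e2 : ∀ c, Ex ⟨j, none⟩ (fun y' => gR ⟨i, some c⟩ y') =
        1 / 4 * Bf (j + 1) i + 1 / 4 * Bf (pr j) i + 1 / 2 * Cf i j :=
      fun c => Ex_none j _ (Bf (j + 1) i) (Cf i j) rfl (Bf (pr j) i) rfl (fun _ => rfl)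
    rw [Ex_some i a _ _ _ e1 e2]
    simp only [gR, col]
    have hd := dl_pos i
    have hd' := dl_le i
    have k1 := key_ineq j i
    rw [Cf_symm j i] at k1
    have b1 := Bf_le i j
    have b2 := Bf_one_le (j + 1) i
    have b3 := Bf_one_le (pr j) i
    have b4 := Cf_ge i j
    have hp : 0 ≤ dl i * (1 / 4 * Bf (j + 1) i + 1 / 4 * Bf (pr j) i + 1 / 2 * Cf i j) := by
      apply mul_nonneg hd.le; linarith
    have hq : dl i * (1 / 2 * Bf i j) ≤ dl i * (7 / 10) := by
      apply mul_le_mul_of_nonneg_left _ hd.le; linarith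
    nlinarith
  · have e1 : Ex ⟨j, some b⟩ (fun y' => gR ⟨i, none⟩ y') = dl j * 2 + (1 - dl j) * Bf i j :=
      Ex_some j b _ _ _ rfl (fun _ => rfl)
    have e2 : ∀ c, Ex ⟨j, some b⟩ (fun y' => gR ⟨i, some c⟩ y') =
        dl j * Bf j i + (1 - dl j) * Cf i j :=
      fun c => Ex_some j b _ _ _ rfl (fun _ => rfl)
    rw [Ex_some i a _ _ _ e1 e2]
    simp only [gR, col]
    have hdi := dl_pos i
    have hdi' := dl_le i
    have hdj := dl_pos j
    have hdj' := dl_le j
    have b1 := Bf_le i j
    have b1' := Bf_one_le i j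
    have b2 := Bf_le j i
    have b2' := Bf_one_le j i
    rcases lt_trichotomy i j with h | h | h
    · rw [if_neg h.ne]
      have hC : Cf i j = Bf i j + 4 * (dl j / dl i) := by unfold Cf; rw [if_pos h]
      set r := dl j / dl i with hr
      have hrj : dl j = r * dl i := by rw [hr]; field_simp
      have hr0 : 0 < r := div_pos hdj hdi
      have hr1 : r ≤ 1 / 1024 := by
        have h1 := dl_div_le i j h
        have h2 := ee_le j
        have h3 := half_pow_le j
        linarith
      rw [hC, hrj]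
      have p1 : 0 < dl i * r := by positivity
      have p2 : 0 < dl i * r * dl i := by positivity
      nlinarith [mul_le_mul_of_nonneg_left b2 p1.le, mul_le_mul_of_nonneg_left b1' p1.le,
        mul_le_mul_of_nonneg_left hdi' p1.le, mul_le_mul_of_nonneg_left hr1 p1.le,
        mul_pos p1 hr0, mul_pos p2 hr0,
        mul_le_mul_of_nonneg_left b1 p2.le, mul_le_mul_of_nonneg_left b2' p2.le]
    · subst h
      rw [if_pos rfl]
      have hC : Cf i i = Bf i i + 6 * dl i := by unfold Cf; simp
      rw [hC]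
      nlinarith [mul_pos hdi hdi, mul_pos (mul_pos hdi hdi) hdi]
    · rw [if_neg h.ne']
      have hC : Cf i j = Bf j i + 4 * (dl i / dl j) := by
        unfold Cf; rw [if_neg (not_lt.2 h.le), if_pos h]
      set r := dl i / dl j with hr
      have hrj : dl i = r * dl j := by rw [hr]; field_simp
      have hr0 : 0 < r := div_pos hdi hdj
      have hr1 : r ≤ 1 / 1024 := by
        have h1 := dl_div_le j i h
        have h2 := ee_le i
        have h3 := half_pow_le i
        linarith
      rw [hC, hrj]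
      have p1 : 0 < dl j * r := by positivity
      have p2 : 0 < dl j * r * dl j := by positivity
      nlinarith [mul_le_mul_of_nonneg_left b1 p1.le, mul_le_mul_of_nonneg_left b2' p1.le,
        mul_le_mul_of_nonneg_left hdj' p1.le, mul_le_mul_of_nonneg_left hr1 p1.le,
        mul_pos p1 hr0, mul_pos p2 hr0,
        mul_le_mul_of_nonneg_left b2 p2.le, mul_le_mul_of_nonneg_left b1' p2.le]

lemma pair_ineq (x x' : St) :
    Ex x (fun y => Ex x' (fun y' => (if y = y' then 1 + 1 / 100 else 1) * gR y y')) ≤ gR x x' := by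
  refine le_trans ?_ (pair_main x x')
  have h1 : ∀ y, Ex x' (fun y' => (if y = y' then 1 + 1 / 100 else 1) * gR y y') ≤
      Ex x' (fun y' => gR y y') + 1 / 50 * pR x' y := by
    intro y
    rw [← Ex_ind x' y, ← Ex_const_mul, ← Ex_add]
    refine Ex_mono _ _ _ fun y' => ?_
    have := gR_le y y'
    split_ifs
    · linarith
    · linarith
  refine (Ex_mono x _ _ h1).trans ?_
  rw [Ex_add, Ex_const_mul]
  have := col_bound x x'
  linarith


/-- The transition laws of the chain. -/
noncomputable def PP (x : St) : PMF St :=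
  ⟨fun y => ENNReal.ofReal (pR x y), by
    have h := tsum_pR x (fun _ => 1) (fun _ => zero_le_one)
    simp only [ENNReal.ofReal_one, mul_one] at h
    have h1 : Ex x (fun _ => 1) = 1 := by
      obtain ⟨i, _ | a⟩ := x
      · rw [Ex_none i _ 1 1 rfl 1 rfl (fun _ => rfl)]; norm_num
      · rw [Ex_some i a _ 1 1 rfl (fun _ => rfl)]; ring
    rw [h1, ENNReal.ofReal_one] at h
    exact ENNReal.summable.hasSum_iff.2 h⟩

lemma PP_apply (x y : St) : PP x y = ENNReal.ofReal (pR x y) := rfl

lemma PP_pair (x x' : St) :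
    ∑' y : St, ∑' y' : St, PP x y * PP x' y' * ENNReal.ofReal (if y = y' then 1 + 1 / 100 else 1) *
      ENNReal.ofReal (gR y y') ≤ ENNReal.ofReal (gR x x') := by
  have h1 : ∀ y, ∑' y' : St, PP x y * PP x' y' *
      ENNReal.ofReal (if y = y' then 1 + 1 / 100 else 1) * ENNReal.ofReal (gR y y') =
      PP x y * ENNReal.ofReal
        (Ex x' (fun y' => (if y = y' then 1 + 1 / 100 else 1) * gR y y')) := by
    intro y
    rw [← tsum_pR x' _ (fun y' => by
      have := gR_ge y y'
      split_ifs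
      · positivity
      · positivity), ← ENNReal.tsum_mul_left]
    refine tsum_congr fun y' => ?_
    rw [ENNReal.ofReal_mul (by split_ifs <;> norm_num)]
    simp only [PP_apply]
    ring
  simp_rw [h1, PP_apply]
  rw [tsum_pR x]
  · exact ENNReal.ofReal_le_ofReal (pair_ineq x x')
  · intro y
    refine Ex_nonneg _ _ fun y' => ?_
    have := gR_ge y y'
    split_ifs
    · positivity
    · positivity


end chain

section recurrence

variable {V : Type} {P : V → PMF V}

lemma stepLaw_add (m n : ℕ) (x : V) :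
    stepLaw P (m + n) x = (stepLaw P m x).bind (stepLaw P n) := by
  induction m generalizing x with
  | zero => simp [stepLaw]
  | succ m ih =>
    rw [Nat.succ_add]
    simp only [stepLaw]
    rw [PMF.bind_bind]
    congr 1
    funext y
    exact ih y

lemma stepLaw_one (x : V) : stepLaw P 1 x = P x := by
  simp only [stepLaw]
  exact PMF.bind_pure (P x)

lemma stepLaw_mul_le (m n : ℕ) (x y z : V) :
    stepLaw P m x y * stepLaw P n y z ≤ stepLaw P (m + n) x z := by
  rw [stepLaw_add, PMF.bind_apply]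
  exact ENNReal.le_tsum (f := fun y => stepLaw P m x y * stepLaw P n y z) y

lemma visits_mul_le (k : ℕ) (x y z : V) :
    (∑' n, stepLaw P n x y) * stepLaw P k y z ≤ ∑' n, stepLaw P n x z := by
  rw [← ENNReal.tsum_mul_right]
  calc ∑' n, stepLaw P n x y * stepLaw P k y z ≤ ∑' n, stepLaw P (n + k) x z :=
        ENNReal.tsum_le_tsum fun n => stepLaw_mul_le n k x y z
    _ ≤ ∑' n, stepLaw P n x z :=
        ENNReal.tsum_comp_le_tsum_of_injective (add_left_injective k) (fun n => stepLaw P n x z)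

lemma recurrent_of_drift [DecidableEq V] (hirr : IsIrreducible P) (f : V → ℕ) (hf : ∀ K, {y | f y ≤ K}.Finite)
    (z : V) (hdrift : ∀ x, ∑' y, P x y * (f y : ℝ≥0∞) ≤ f x + if x = z then 1 else 0) :
    IsRecurrent P := by
  have main : ∀ x, ∑' n, stepLaw P n x z = ∞ := by
    intro x
    by_contra hfin
    set G := ∑' n, stepLaw P n x z with hG
    have hE : ∀ n, ∑' y, stepLaw P n x y * (f y : ℝ≥0∞) ≤
        f x + ∑ m ∈ Finset.range n, stepLaw P m x z := by
      intro n
      induction n with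
      | zero =>
        simp only [stepLaw, Finset.range_zero, Finset.sum_empty, add_zero]
        rw [tsum_eq_single x]
        · simp
        · intro y hy; simp [hy]
      | succ n ih =>
        have h1 : ∑' y, stepLaw P (n + 1) x y * (f y : ℝ≥0∞) =
            ∑' w, stepLaw P n x w * ∑' y, P w y * (f y : ℝ≥0∞) := by
          have h2 : ∀ y, stepLaw P (n + 1) x y = ∑' w, stepLaw P n x w * P w y := by
            intro y
            rw [stepLaw_add, PMF.bind_apply]
            simp_rw [stepLaw_one]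
          simp_rw [h2, ← ENNReal.tsum_mul_right]
          rw [ENNReal.tsum_comm]
          refine tsum_congr fun w => ?_
          rw [← ENNReal.tsum_mul_left]
          refine tsum_congr fun y => ?_
          ring
        rw [h1, Finset.sum_range_succ, ← add_assoc]
        calc ∑' w, stepLaw P n x w * ∑' y, P w y * (f y : ℝ≥0∞)
            ≤ ∑' w, stepLaw P n x w * (f w + if w = z then 1 else 0) :=
              ENNReal.tsum_le_tsum fun w => by gcongr; exact hdrift w
          _ = ∑' w, stepLaw P n x w * f w + stepLaw P n x z := by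
              simp_rw [mul_add]
              rw [ENNReal.tsum_add]
              congr 1
              rw [tsum_eq_single z]
              · simp
              · intro w hw; simp [hw]
          _ ≤ _ := by gcongr
    have hE' : ∀ n, ∑' y, stepLaw P n x y * (f y : ℝ≥0∞) ≤ f x + G := by
      intro n
      refine (hE n).trans ?_
      gcongr
      exact ENNReal.sum_le_tsum _
    have hC : (f x : ℝ≥0∞) + G ≠ ∞ := by simp [hfin]
    obtain ⟨K, hK⟩ := ENNReal.exists_nat_gt (show 2 * ((f x : ℝ≥0∞) + G) ≠ ∞ from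
      ENNReal.mul_ne_top (by simp) hC)
    have hKpos : (K : ℝ≥0∞) ≠ 0 := by
      intro h0; rw [h0] at hK; simp at hK
    set F := (hf K).toFinset with hF
    have hsumF : ∀ n, (1 / 2 : ℝ≥0∞) ≤ ∑ y ∈ F, stepLaw P n x y := by
      intro n
      by_contra hlt
      push Not at hlt
      have h1 : ∑' y, stepLaw P n x y = 1 := PMF.tsum_coe _
      have h2 : (1 : ℝ≥0∞) ≤ ∑ y ∈ F, stepLaw P n x y +
          (∑' y, stepLaw P n x y * (f y : ℝ≥0∞)) / K := by
        rw [← h1, ENNReal.div_eq_inv_mul, ← ENNReal.tsum_mul_left]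
        have h3 : ∑ y ∈ F, stepLaw P n x y = ∑' y, if y ∈ F then stepLaw P n x y else 0 := by
          rw [tsum_eq_sum (s := F)]
          · refine Finset.sum_congr rfl fun y hy => ?_
            rw [if_pos hy]
          · intro y hy; rw [if_neg hy]
        rw [h3, ← ENNReal.tsum_add]
        refine ENNReal.tsum_le_tsum fun y => ?_
        by_cases hy : y ∈ F
        · rw [if_pos hy]; exact le_self_add
        · rw [if_neg hy, zero_add]
          have hy' : K ≤ f y := by
            rw [hF, Set.Finite.mem_toFinset, Set.mem_ofPred_eq, not_le] at hy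
            exact hy.le
          have h4 : (1 : ℝ≥0∞) ≤ (K : ℝ≥0∞)⁻¹ * f y := by
            rw [← ENNReal.div_eq_inv_mul, ENNReal.le_div_iff_mul_le (Or.inl hKpos)
              (Or.inl (by simp))]
            rw [one_mul]
            exact_mod_cast hy'
          calc stepLaw P n x y = stepLaw P n x y * 1 := (mul_one _).symm
            _ ≤ stepLaw P n x y * ((K : ℝ≥0∞)⁻¹ * f y) := by gcongr
            _ = _ := by ring
      have h5 : (∑' y, stepLaw P n x y * (f y : ℝ≥0∞)) / K ≤ 1 / 2 := by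
        rw [ENNReal.div_le_iff hKpos (by simp)]
        refine (hE' n).trans ?_
        have : (1 / 2 : ℝ≥0∞) * (2 * ((f x : ℝ≥0∞) + G)) ≤ 1 / 2 * K := by gcongr
        rwa [← mul_assoc, one_div, ENNReal.inv_mul_cancel (by simp) (by simp), one_mul,
          ← one_div] at this
      have h6 : (1 : ℝ≥0∞) < 1 := by
        calc (1 : ℝ≥0∞) ≤ _ := h2
          _ < 1 / 2 + 1 / 2 := ENNReal.add_lt_add_of_lt_of_le (by
              exact ne_top_of_le_ne_top (by simp) h5) hlt h5
          _ = 1 := ENNReal.add_halves 1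
      exact lt_irrefl _ h6
    have hinf : ∑ y ∈ F, ∑' n, stepLaw P n x y = ∞ := by
      rw [← Summable.tsum_finsetSum (fun _ _ => ENNReal.summable)]
      rw [eq_top_iff]
      calc (∞ : ℝ≥0∞) = ∑' _ : ℕ, (1 / 2 : ℝ≥0∞) := by
            rw [ENNReal.tsum_const_eq_top_of_ne_zero (by simp)]
        _ ≤ _ := ENNReal.tsum_le_tsum hsumF
    rw [ENNReal.sum_eq_top] at hinf
    obtain ⟨y, _, hy⟩ := hinf
    obtain ⟨k, hk⟩ := hirr y z
    have := visits_mul_le (P := P) k x y z
    rw [hy, ENNReal.top_mul hk, top_le_iff] at this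
    exact hfin this
  intro x
  obtain ⟨k, hk⟩ := hirr z x
  have := visits_mul_le (P := P) k x z x
  rwa [main x, ENNReal.top_mul hk, top_le_iff] at this


/-- reachability with positive probability -/
def Reach (P : V → PMF V) (x y : V) : Prop := ∃ n, stepLaw P n x y ≠ 0

lemma Reach.of_step {x y : V} (h : P x y ≠ 0) : Reach P x y := ⟨1, by rwa [stepLaw_one]⟩

lemma Reach.refl (x : V) : Reach P x x := ⟨0, by simp [stepLaw]⟩

lemma Reach.trans {x y z : V} (h1 : Reach P x y) (h2 : Reach P y z) : Reach P x z := by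
  obtain ⟨m, hm⟩ := h1
  obtain ⟨n, hn⟩ := h2
  refine ⟨m + n, fun h0 => ?_⟩
  have := stepLaw_mul_le (P := P) m n x y z
  rw [h0, nonpos_iff_eq_zero, mul_eq_zero] at this
  tauto

end recurrence

section structureOfChain

lemma PP_ne_zero (x y : St) : PP x y ≠ 0 ↔ pR x y ≠ 0 := by
  rw [PP_apply, ne_eq, ENNReal.ofReal_eq_zero, not_le]
  exact ⟨fun h => h.ne', fun h => lt_of_le_of_ne (pR_nonneg x y) (Ne.symm h)⟩

/-- the reversible measure -/
noncomputable def piR : St → ℝ
  | ⟨i, none⟩ => if i = 0 then 2 else 4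
  | ⟨i, some _⟩ => (if i = 0 then 2 else 4) / (2 * ((D i : ℝ) ^ 2 + 1) * dl i)

lemma piR_pos (x : St) : 0 < piR x := by
  obtain ⟨i, _ | a⟩ := x <;> simp only [piR]
  · split_ifs <;> norm_num
  · have := dl_pos i
    have := D_pos i
    split_ifs <;> positivity

lemma piR_symm (x y : St) : piR x * pR x y = piR y * pR y x := by
  obtain ⟨i, _ | a⟩ := x <;> obtain ⟨j, _ | b⟩ := y <;> simp only [piR, pR]
  · by_cases h1 : j = i + 1
    · subst h1
      unfold pr
      by_cases h0 : i = 0
      · subst h0; norm_num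
      · have e1 : ¬ (i + 1 = i - 1) := by omega
        have e2 : ¬ (i = i + 1 + 1) := by omega
        simp [h0, e1, e2]
    · by_cases h2 : i = j + 1
      · subst h2
        unfold pr
        by_cases h0 : j = 0
        · subst h0; norm_num
        · have e1 : ¬ (j + 1 = j - 1) := by omega
          have e2 : ¬ (j = j + 1 + 1) := by omega
          simp [h0, e1, e2]
      · have e1 : ¬ (j = pr i) := by unfold pr; split_ifs <;> omega
        have e2 : ¬ (i = pr j) := by unfold pr; split_ifs <;> omega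
        simp [h1, h2, e1, e2]
  · by_cases h : j = i
    · subst h
      have := dl_pos j
      have := D_pos j
      simp only [if_true]
      field_simp
    · simp [h, Ne.symm h]
  · by_cases h : j = i
    · subst h
      have := dl_pos j
      have := D_pos j
      simp only [if_true]
      field_simp
    · simp [h, Ne.symm h]
  · by_cases h : j = i
    · subst h
      by_cases hab : (b : ℕ) = a
      · simp [hab]
      · simp [hab, Ne.symm hab]
    · simp [h, Ne.symm h]

lemma PP_reversible : IsReversible PP := by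
  refine ⟨piR, piR_pos, fun x y => ?_⟩
  simp only [PP_apply]
  rw [ENNReal.toReal_ofReal (pR_nonneg _ _), ENNReal.toReal_ofReal (pR_nonneg _ _)]
  exact piR_symm x y

lemma pR_symm_ne (x y : St) (h : pR x y ≠ 0) : pR y x ≠ 0 := by
  intro h0
  have := piR_symm x y
  rw [h0, mul_zero, mul_eq_zero] at this
  rcases this with h1 | h1
  · exact (piR_pos x).ne' h1
  · exact h h1

lemma pR_self (x : St) : pR x x = 0 := by
  obtain ⟨i, _ | a⟩ := x <;> simp only [pR]
  · have e1 : ¬ (i = i + 1) := by omega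
    have e2 : ¬ (i = pr i) := by unfold pr; split_ifs <;> omega
    simp [e2]
  · simp

/-- the graph of possible jumps -/
def GG : SimpleGraph St where
  Adj x y := pR x y ≠ 0
  symm := ⟨fun x y h => pR_symm_ne x y h⟩
  loopless := ⟨fun x h => h (pR_self x)⟩

lemma pR_succ (i : ℕ) : pR ⟨i, none⟩ ⟨i + 1, none⟩ ≠ 0 := by
  simp only [pR, if_true]
  positivity

lemma pR_trap (i : ℕ) (a : Fin (D i ^ 2 + 1)) : pR ⟨i, none⟩ ⟨i, some a⟩ ≠ 0 := by
  simp only [pR, if_true]
  positivity

lemma GG_reach (x : St) : GG.Reachable ⟨0, none⟩ x := by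
  have h1 : ∀ i, GG.Reachable ⟨0, none⟩ ⟨i, none⟩ := by
    intro i
    induction i with
    | zero => exact SimpleGraph.Reachable.refl _
    | succ i ih => exact ih.trans (SimpleGraph.Adj.reachable (show GG.Adj _ _ from pR_succ i))
  obtain ⟨i, _ | a⟩ := x
  · exact h1 i
  · exact (h1 i).trans (SimpleGraph.Adj.reachable (show GG.Adj _ _ from pR_trap i a))

lemma GG_connected : GG.Connected := by
  have : Nonempty St := ⟨⟨0, none⟩⟩
  exact ⟨fun x y => (GG_reach x).symm.trans (GG_reach y)⟩

lemma PP_reach (x : St) : Reach PP ⟨0, none⟩ x ∧ Reach PP x ⟨0, none⟩ := by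
  have key : ∀ x y : St, pR x y ≠ 0 → Reach PP x y ∧ Reach PP y x := fun x y h =>
    ⟨Reach.of_step ((PP_ne_zero x y).2 h), Reach.of_step ((PP_ne_zero y x).2 (pR_symm_ne x y h))⟩
  have h1 : ∀ i, Reach PP ⟨0, none⟩ ⟨i, none⟩ ∧ Reach PP ⟨i, none⟩ ⟨0, none⟩ := by
    intro i
    induction i with
    | zero => exact ⟨Reach.refl _, Reach.refl _⟩
    | succ i ih =>
      exact ⟨ih.1.trans (key _ _ (pR_succ i)).1, (key _ _ (pR_succ i)).2.trans ih.2⟩
  obtain ⟨i, _ | a⟩ := x
  · exact h1 i
  · exact ⟨(h1 i).1.trans (key _ _ (pR_trap i a)).1, (key _ _ (pR_trap i a)).2.trans (h1 i).2⟩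

lemma PP_irreducible : IsIrreducible PP := fun x y => (PP_reach x).2.trans (PP_reach y).1

lemma PP_finite (x : St) : {y | PP x y ≠ 0}.Finite := by
  obtain ⟨i, o⟩ := x
  have : {y | PP ⟨i, o⟩ y ≠ 0} ⊆ Set.range (fun y : Σ k : Fin (i + 2), Option (Fin (D k ^ 2 + 1)) =>
      (⟨(y.1 : ℕ), y.2⟩ : St)) := by
    rintro ⟨j, q⟩ h
    rw [Set.mem_ofPred_eq, PP_ne_zero] at h
    have hj : j < i + 2 := by
      by_contra hj
      apply h
      have e1 : ¬ (j = i + 1) := by omega
      have e2 : ¬ (j = pr i) := by unfold pr; split_ifs <;> omega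
      have e3 : ¬ (j = i) := by omega
      obtain _ | a := o <;> obtain _ | b := q <;> simp [pR, e1, e2, e3]
    exact ⟨⟨⟨j, hj⟩, q⟩, rfl⟩
  exact (Set.finite_range _).subset this

lemma PP_recurrent : IsRecurrent PP := by
  refine recurrent_of_drift PP_irreducible (fun y => y.1) ?_ ⟨0, none⟩ ?_
  · intro K
    have : {y : St | y.1 ≤ K} ⊆ Set.range (fun y : Σ k : Fin (K + 1), Option (Fin (D k ^ 2 + 1)) =>
      (⟨(y.1 : ℕ), y.2⟩ : St)) := by
      rintro ⟨j, q⟩ h
      rw [Set.mem_ofPred_eq] at h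
      exact ⟨⟨⟨j, by simpa [Nat.lt_succ_iff] using h⟩, q⟩, rfl⟩
    exact (Set.finite_range _).subset this
  · intro x
    have h1 : ∑' y : St, PP x y * ((y.1 : ℕ) : ℝ≥0∞) =
        ENNReal.ofReal (Ex x (fun y => (y.1 : ℝ))) := by
      rw [← tsum_pR x _ (fun y => by positivity)]
      refine tsum_congr fun y => ?_
      rw [ENNReal.ofReal_natCast, PP_apply]
    rw [h1]
    obtain ⟨i, _ | a⟩ := x
    · rw [Ex_none i _ ((i + 1 : ℕ) : ℝ) (i : ℝ) rfl ((pr i : ℕ) : ℝ) rfl (fun _ => rfl)]
      unfold pr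
      by_cases h0 : i = 0
      · subst h0
        simp only [if_true]
        rw [← ENNReal.ofReal_one, ← ENNReal.ofReal_natCast, ← ENNReal.ofReal_add] <;> norm_num
      · rw [if_neg h0]
        have : ((i - 1 : ℕ) : ℝ) = (i : ℝ) - 1 := by
          rw [Nat.cast_sub (by omega)]; norm_num
        rw [this]
        refine le_trans (le_of_eq ?_) le_self_add
        rw [← ENNReal.ofReal_natCast]
        congr 1
        push_cast
        ring
    · rw [Ex_some i a _ (i : ℝ) (i : ℝ) rfl (fun _ => rfl)]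
      refine le_trans (le_of_eq ?_) le_self_add
      rw [← ENNReal.ofReal_natCast]
      congr 1
      ring

end structureOfChain


section env

/-- fair sign law -/
noncomputable def sgn : Measure ℝ :=
  (2⁻¹ : ℝ≥0∞) • Measure.dirac 1 + (2⁻¹ : ℝ≥0∞) • Measure.dirac (-1)

instance : IsProbabilityMeasure sgn := ⟨by
  simp only [sgn, Measure.coe_add, Measure.coe_smul, Pi.add_apply, Pi.smul_apply, measure_univ,
    smul_eq_mul, mul_one]
  exact ENNReal.inv_two_add_inv_two⟩

lemma integrable_sgn (F : ℝ → ℝ) : Integrable F sgn := by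
  unfold sgn
  refine Integrable.add_measure ?_ ?_
  · exact (integrable_dirac (by simp)).smul_measure (by simp)
  · exact (integrable_dirac (by simp)).smul_measure (by simp)

lemma integral_sgn (F : ℝ → ℝ) : ∫ r, F r ∂sgn = (F 1 + F (-1)) / 2 := by
  unfold sgn
  rw [integral_add_measure, integral_smul_measure, integral_smul_measure, integral_dirac,
    integral_dirac]
  · simp only [ENNReal.toReal_inv, ENNReal.toReal_ofNat, smul_eq_mul]
    ring
  · exact (integrable_dirac (by simp)).smul_measure (by simp)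
  · exact (integrable_dirac (by simp)).smul_measure (by simp)

lemma exists_environment (V : Type) : ∃ (Ω : Type) (_ : MeasurableSpace Ω) (μ : Measure Ω)
    (ω : ℕ → V → Ω → ℝ), IsProbabilityMeasure μ ∧ IsEnvironment μ ω := by
  refine ⟨ℕ × V → ℝ, inferInstance, Measure.infinitePi (fun _ => sgn), fun i y a => a (i, y),
    inferInstance, ?_⟩
  have hmap : ∀ p : ℕ × V, Measure.map (fun a : ℕ × V → ℝ => a p)
      (Measure.infinitePi (fun _ => sgn)) = sgn := fun p =>
    Measure.infinitePi_map_eval (fun _ : ℕ × V => sgn) p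
  have hint : ∀ (p : ℕ × V) (F : ℝ → ℝ), Measurable F →
      Integrable (fun a : ℕ × V → ℝ => F (a p)) (Measure.infinitePi (fun _ => sgn)) := by
    intro p F hF
    have h := integrable_sgn F
    rw [← hmap p] at h
    exact (integrable_map_measure hF.aestronglyMeasurable
      (measurable_pi_apply p).aemeasurable).1 h
  have hval : ∀ (p : ℕ × V) (F : ℝ → ℝ), Measurable F →
      ∫ a : ℕ × V → ℝ, F (a p) ∂(Measure.infinitePi (fun _ => sgn)) = (F 1 + F (-1)) / 2 := by
    intro p F hF
    rw [← integral_sgn F, ← hmap p]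
    rw [integral_map (measurable_pi_apply p).aemeasurable hF.aestronglyMeasurable, hmap p]
  refine ⟨fun i y => measurable_pi_apply _, ?_, ?_, ?_, ?_, ?_, ?_⟩
  · exact iIndepFun_infinitePi (P := fun _ : ℕ × V => sgn) (X := fun _ r => r)
      (fun _ => measurable_id)
  · intro i y j z
    refine ⟨(measurable_pi_apply _).aemeasurable, (measurable_pi_apply _).aemeasurable, ?_⟩
    rw [hmap, hmap]
  · intro i y
    refine (memLp_two_iff_integrable_sq (measurable_pi_apply (i, y)).aestronglyMeasurable).2 ?_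
    exact hint (i, y) (fun r => r ^ 2) (by fun_prop)
  · intro i y
    have := hval (i, y) (fun r => r) measurable_id
    rw [this]; norm_num
  · intro i y
    have := hval (i, y) (fun r => r ^ 2) (by fun_prop)
    rw [this]; norm_num
  · intro β _ i y
    exact hint (i, y) (fun r => Real.exp (β * r)) (by fun_prop)

end env

/-- **Yes**: there is a connected locally finite graph with a nearest-neighbour, irreducible,
reversible, recurrent Markov chain such that, for every environment law allowed, the `L²` critical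
value of the directed polymer is positive at every starting point. -/
theorem main :
    ∃ (V : Type) (G : SimpleGraph V) (P : V → PMF V),
      Countable V ∧ Infinite V ∧ G.Connected ∧
      (∀ x y, P x y ≠ 0 → G.Adj x y) ∧ (∀ x, {y | P x y ≠ 0}.Finite) ∧
      IsIrreducible P ∧ IsReversible P ∧ IsRecurrent P ∧
      (∃ (Ω : Type) (_ : MeasurableSpace Ω) (μ : Measure Ω) (ω : ℕ → V → Ω → ℝ),
        IsProbabilityMeasure μ ∧ IsEnvironment μ ω) ∧
      ∀ (Ω : Type) [MeasurableSpace Ω] (μ : Measure Ω) [IsProbabilityMeasure μ]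
        (ω : ℕ → V → Ω → ℝ), IsEnvironment μ ω → ∀ x, 0 < beta2 P μ ω x := by
  refine ⟨St, GG, PP, inferInstance, inferInstance, GG_connected,
    fun x y h => (PP_ne_zero x y).1 h, PP_finite, PP_irreducible, PP_reversible, PP_recurrent,
    exists_environment St, ?_⟩
  intro Ω _ μ _ ω h x
  refine beta2_pos PP h x (1 / 100) (by norm_num) (fun x x' => ENNReal.ofReal (gR x x')) ?_ ?_ ?_
  · intro x x'
    exact ENNReal.one_le_ofReal.2 (gR_ge x x')
  · exact ENNReal.ofReal_lt_top
  · intro x x'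
    exact PP_pair x x'

end Pool.Agent.Helper95.RevRec
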